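import Pool.Agent.J4H10.Tw.Main

/-!
# Frobenius eigenvalues of cyclic covers whose branch locus contains prime divisors of the line
-/

set_option autoImplicit false
set_option linter.unusedSectionVars false
set_option linter.style.haveILetI false

open Polynomial

namespace Pool.Agent.J4H10.JV

open Pool.Agent.W313.Hyp Pool.Agent.W343.BSD Pool.Agent.J4H10.Tw

variable {k : Type} [Field k] [Finite k]

theorem card_one {κ : Type} [Field κ] (ℓ : ℕ) [hℓ : Fact ℓ.Prime] [CharP κ ℓ] (χ : MulChar k ℂ)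
    (hχ : χ ≠ 1) (a : ℕ) (hχa : χ ^ ℓ ^ a = 1) : (Nat.card k : κ) = 1 := by
  letI : Fintype k := Fintype.ofFinite k
  have h1 : orderOf χ ∣ ℓ ^ a := orderOf_dvd_of_pow_eq_one hχa
  obtain ⟨b, hb, h2⟩ := (Nat.dvd_prime_pow hℓ.out).1 h1
  have hb0 : b ≠ 0 := by
    rintro rfl
    rw [pow_zero, orderOf_eq_one_iff] at h2
    exact hχ h2
  have h3 : ℓ ∣ Fintype.card k - 1 :=
    ((dvd_pow_self ℓ hb0).trans (dvd_of_eq h2.symm)).trans
      (MulChar.orderOf_dvd_card_sub_one _ χ)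
  have h4 : ((Fintype.card k - 1 : ℕ) : κ) = 0 := (CharP.cast_eq_zero_iff κ ℓ _).2 h3
  rw [Nat.cast_sub Fintype.card_pos, Nat.cast_one, sub_eq_zero] at h4
  rw [Nat.card_eq_fintype_card, h4]

/-- the coefficients of the L-function of a character of `ℓ`-power order and a prime `D₀` are one
modulo `ℓ` -/
theorem coeff_red {κ : Type} [Field κ] (ℓ : ℕ) [Fact ℓ.Prime] [CharP κ ℓ]
    (φ : AI →+* κ) (χ : MulChar k ℂ) (hχ : χ ≠ 1) (a : ℕ) (hχa : χ ^ ℓ ^ a = 1) (c : k)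
    (hc : c ≠ 0) (D₀ : k[X]) (hD : D₀.Monic) (hirr : Irreducible D₀) :
    ∃ s : ℕ → AI, (∀ m, (s m : ℂ) = S (hf χ c D₀) m) ∧ s 0 = 1 ∧
      ∀ m < D₀.natDegree, φ (s m) = 1 := by
  letI : Fintype k := Fintype.ofFinite k
  have hdeg : 0 < D₀.natDegree := hirr.natDegree_pos
  have hsq : Squarefree D₀ := hirr.squarefree
  have hqκ : (Nat.card k : κ) = 1 := card_one ℓ χ hχ a hχa
  let hA : k[X] → AI := fun g => ⟨hf χ c D₀ g, isIntegral_mulChar χ _⟩
  have hAcoe : ∀ g, ((hA g : AI) : ℂ) = hf χ c D₀ g := fun _ => rfl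
  have hACM : CM hA := by
    constructor
    · apply Subtype.ext
      exact (hf_CM χ c D₀).1
    · intro g g' hg hg'
      apply Subtype.ext
      exact (hf_CM χ c D₀).2 g g' hg hg'
  have hS : ∀ m, ((S hA m : AI) : ℂ) = S (hf χ c D₀) m := fun m =>
    S_map (integralClosure ℤ ℂ).val.toRingHom hA m
  let hκ : k[X] → κ := fun g => φ (hA g)
  have hκCM : CM hκ := by
    constructor
    · change φ (hA 1) = 1
      rw [hACM.1, map_one]
    · intro g g' hg hg'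
      change φ (hA (g * g')) = _
      rw [hACM.2 g g' hg hg', map_mul]
  have hSκ : ∀ m, φ (S hA m) = S hκ m := fun m => S_map φ hA m
  let P₀ : MI k := ⟨D₀, hD, hirr⟩
  let Z : Finset (MI k) := {P₀}
  have hZ0 : ∀ P ∈ Z, hκ P.1 = 0 := by
    intro P hP
    rw [Finset.mem_singleton] at hP
    have hP' : P.1 ∣ D₀ := by rw [hP]
    have h1 : hA P.1 = 0 := by
      apply Subtype.ext
      rw [hAcoe, ← hf_prime χ c D₀ P.1 hD P.2.1]
      have h2 : nrm P.1 (C c * D₀) = 0 := by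
        unfold nrm
        rw [(AdjoinRoot.mk_eq_zero).2 (hP'.mul_left _)]
        haveI : Fact (Irreducible P.1) := ⟨P.2.2⟩
        haveI : Module.Finite k (AdjoinRoot P.1) := P.2.1.finite_adjoinRoot
        exact Algebra.norm_zero
      rw [h2, MulChar.map_zero]
      rfl
    change φ (hA P.1) = 0
    rw [h1, map_zero]
  have hZ1 : ∀ P ∉ Z, hκ P.1 = 1 := by
    intro P hP
    rw [Finset.mem_singleton] at hP
    have hP' : ¬ P.1 ∣ D₀ := by
      intro h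
      apply hP
      apply Subtype.ext
      exact eq_of_monic_of_associated P.2.1 hD (P.2.2.associated_of_dvd hirr h)
    apply eq_one_of_pow ℓ _ a
    change φ (hA P.1) ^ ℓ ^ a = 1
    rw [← map_pow]
    have h1 : hA P.1 ^ ℓ ^ a = 1 := by
      apply Subtype.ext
      rw [SubmonoidClass.coe_pow, hAcoe, ← hf_prime χ c D₀ P.1 hD P.2.1]
      haveI : Fact (Irreducible P.1) := ⟨P.2.2⟩
      haveI : Module.Finite k (AdjoinRoot P.1) := P.2.1.finite_adjoinRoot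
      have h2 : nrm P.1 (C c * D₀) ≠ 0 := by
        unfold nrm
        rw [Algebra.norm_ne_zero_iff, Ne, AdjoinRoot.mk_eq_zero]
        intro h3
        rcases P.2.2.prime.dvd_or_dvd h3 with h4 | h4
        · have h5 : IsUnit (C c : k[X]) := isUnit_C.2 (isUnit_iff_ne_zero.2 hc)
          exact P.2.2.not_isUnit (isUnit_of_dvd_unit h4 h5)
        · exact hP' h4
      have h6 := MulChar.pow_apply_coe χ (ℓ ^ a) (Units.mk0 _ h2)
      rw [hχa, MulChar.one_apply_coe] at h6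
      exact h6.symm
    rw [h1, map_one]
  have hgen := gen_identity hκ hκCM hqκ Z hZ0 hZ1
  refine ⟨S hA, hS, ?_, fun m hm => ?_⟩
  · apply Subtype.ext
    rw [hS, S_zero (hf_CM χ c D₀)]
    rfl
  · rw [hSκ]
    rw [Finset.prod_singleton] at hgen
    have h1 : (1 - PowerSeries.X : PowerSeries κ) * PowerSeries.mk (fun _ => (1 : κ)) = 1 := by
      rw [mul_comm]
      exact PowerSeries.mk_one_mul_one_sub_eq_one κ
    have h2 : PowerSeries.mk (S hκ) = (1 - PowerSeries.X ^ P₀.1.natDegree) *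
        PowerSeries.mk (fun _ => (1 : κ)) := by
      calc PowerSeries.mk (S hκ) = ((1 - PowerSeries.X : PowerSeries κ) *
            PowerSeries.mk (fun _ => (1 : κ))) * PowerSeries.mk (S hκ) := by rw [h1, one_mul]
        _ = ((1 - PowerSeries.X : PowerSeries κ) * PowerSeries.mk (S hκ)) *
            PowerSeries.mk (fun _ => (1 : κ)) := by ring
        _ = _ := by rw [hgen]
    have h3 := congrArg (PowerSeries.coeff m) h2
    rw [PowerSeries.coeff_mk, sub_mul, one_mul, map_sub, PowerSeries.coeff_mk,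
      PowerSeries.coeff_X_pow_mul', if_neg (not_le.2 hm), sub_zero] at h3
    exact h3

/-- the inverse roots of the L-function modulo `ℓ` -/
theorem root_red {κ : Type} [Field κ] (ℓ : ℕ) [hℓ : Fact ℓ.Prime] [CharP κ ℓ]
    (φ : AI →+* κ) (χ : MulChar k ℂ) (hχ : χ ≠ 1) (a : ℕ) (hχa : χ ^ ℓ ^ a = 1) (c : k)
    (hc : c ≠ 0) (D₀ : k[X]) (hD : D₀.Monic) (hirr : Irreducible D₀)
    (hdeg : Nat.Coprime D₀.natDegree ℓ) (t : ℂ) (ht : (Lp χ c D₀ 1).eval t = 0) :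
    ∃ g : AI, (g : ℂ) * t = 1 ∧ φ g ^ D₀.natDegree = 1 ∧ φ g ≠ 1 := by
  obtain ⟨s, hs, hs0, hs1⟩ := coeff_red ℓ φ χ hχ a hχa c hc D₀ hD hirr
  obtain ⟨n, hn⟩ : ∃ n, n = D₀.natDegree := ⟨_, rfl⟩
  have hn0 : 0 < n := by rw [hn]; exact hirr.natDegree_pos
  have hev : ∑ m ∈ Finset.range n, (s m : ℂ) * t ^ m = 0 := by
    rw [← ht]
    unfold Lp
    rw [eval_finset_sum, ← hn]
    refine Finset.sum_congr rfl fun m _ => ?_
    rw [eval_mul, eval_C, eval_pow, eval_X, one_pow, mul_one, hs]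
  have ht0 : t ≠ 0 := by
    rintro rfl
    rw [Finset.sum_eq_single_of_mem 0 (Finset.mem_range.2 hn0) (fun m _ hm => by
      rw [zero_pow hm, mul_zero]), hs0] at hev
    simp at hev
  have hev2 : ∑ m ∈ Finset.range n, (s m : ℂ) * t⁻¹ ^ (n - 1 - m) = 0 := by
    have h1 : ∑ m ∈ Finset.range n, (s m : ℂ) * t⁻¹ ^ (n - 1 - m) =
        t⁻¹ ^ (n - 1) * ∑ m ∈ Finset.range n, (s m : ℂ) * t ^ m := by
      rw [Finset.mul_sum]
      refine Finset.sum_congr rfl fun m hm => ?_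
      rw [Finset.mem_range] at hm
      have h2 : t⁻¹ ^ (n - 1) = t⁻¹ ^ (n - 1 - m) * t⁻¹ ^ m := by
        rw [← pow_add]
        congr 1
        omega
      have h3 : t⁻¹ ^ m * t ^ m = 1 := by rw [← mul_pow, inv_mul_cancel₀ ht0, one_pow]
      rw [h2]
      calc (s m : ℂ) * t⁻¹ ^ (n - 1 - m) = (s m : ℂ) * t⁻¹ ^ (n - 1 - m) * 1 := (mul_one _).symm
        _ = _ := by rw [← h3]; ring
    rw [h1, hev, mul_zero]
  obtain ⟨R, hR⟩ : ∃ R : AI[X], R = ∑ m ∈ Finset.range n, C (s m) * X ^ (n - 1 - m) := ⟨_, rfl⟩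
  have hRm : R.Monic := by
    apply monic_of_natDegree_le_of_coeff_eq_one (n - 1)
    · rw [hR]
      refine natDegree_sum_le_of_forall_le _ _ fun m _ => ?_
      exact (natDegree_C_mul_X_pow_le _ _).trans (Nat.sub_le _ _)
    · rw [hR, finsetSum_coeff, Finset.sum_eq_single_of_mem 0 (Finset.mem_range.2 hn0) (by
        intro m hm hm0
        rw [Finset.mem_range] at hm
        rw [coeff_C_mul, coeff_X_pow, if_neg (by omega), mul_zero])]
      rw [coeff_C_mul, coeff_X_pow, if_pos (by omega), mul_one, hs0]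
  have hRe : aeval t⁻¹ R = 0 := by
    rw [hR, map_sum, ← hev2]
    refine Finset.sum_congr rfl fun m _ => ?_
    rw [map_mul, aeval_C, map_pow, aeval_X]
    rfl
  have hint : IsIntegral ℤ t⁻¹ := isIntegral_trans (R := ℤ) (A := AI) t⁻¹ ⟨R, hRm, by
    rw [← aeval_def]; exact hRe⟩
  obtain ⟨g, hg⟩ : ∃ g : AI, (g : ℂ) = t⁻¹ := ⟨⟨t⁻¹, hint⟩, rfl⟩
  refine ⟨g, by rw [hg, inv_mul_cancel₀ ht0], ?_⟩
  have hev3 : ∑ m ∈ Finset.range n, s m * g ^ (n - 1 - m) = 0 := by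
    apply Subtype.ext
    have h1 : ((∑ m ∈ Finset.range n, s m * g ^ (n - 1 - m) : AI) : ℂ) =
        ∑ m ∈ Finset.range n, (s m : ℂ) * t⁻¹ ^ (n - 1 - m) := by
      rw [← hg]
      push_cast
      rfl
    rw [h1, hev2]
    rfl
  have hev4 : ∑ m ∈ Finset.range n, φ g ^ m = 0 := by
    have h1 := congrArg φ hev3
    rw [map_sum, map_zero] at h1
    rw [← Finset.sum_range_reflect, ← h1]
    refine Finset.sum_congr rfl fun m hm => ?_
    rw [Finset.mem_range] at hm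
    rw [map_mul, map_pow, hs1 m (by omega), one_mul]
  rw [← hn]
  constructor
  · have h1 := mul_geom_sum (φ g) n
    rw [hev4, mul_zero] at h1
    exact (sub_eq_zero.1 h1.symm)
  · intro h1
    rw [h1] at hev4
    simp only [one_pow, Finset.sum_const, Finset.card_range, nsmul_eq_mul, mul_one] at hev4
    rw [CharP.cast_eq_zero_iff κ ℓ, hn] at hev4
    have h2 : ℓ ∣ Nat.gcd D₀.natDegree ℓ := Nat.dvd_gcd hev4 dvd_rfl
    rw [hdeg.gcd_eq_one] at h2
    exact hℓ.out.one_lt.ne' (Nat.dvd_one.1 h2)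

/-- elements of small degree over the prime field -/
theorem pow_eq_one_of_zmod {κ : Type} [Field κ] (ℓ : ℕ) [hℓ : Fact ℓ.Prime] [Algebra (ZMod ℓ) κ]
    (f : (ZMod ℓ)[X]) (hf : f.Monic) (b : ℕ) (hb : f.natDegree ≤ b) (y : κ) (hy0 : y ≠ 0)
    (h1 : aeval y f = 0) : y ^ (∏ j ∈ Finset.Icc 1 b, (ℓ ^ j - 1)) = 1 := by
  have hint : IsIntegral (ZMod ℓ) y := ⟨f, hf, by rw [← aeval_def]; exact h1⟩
  have hirr := minpoly.irreducible hint
  have h2 : minpoly (ZMod ℓ) y ∣ f := minpoly.dvd _ _ h1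
  set j := (minpoly (ZMod ℓ) y).natDegree with hj
  have hj0 : 0 < j := hirr.natDegree_pos
  have hjb : j ≤ b := (natDegree_le_of_dvd h2 hf.ne_zero).trans hb
  have h3 : minpoly (ZMod ℓ) y ∣ X ^ (Nat.card (ZMod ℓ)) ^ j - X :=
    (hirr.natDegree_dvd_iff_dvd_X_pow_card_pow_sub_X).1 (dvd_refl _)
  rw [Nat.card_zmod] at h3
  have h4 : y ^ ℓ ^ j = y := by
    rw [minpoly.dvd_iff, map_sub, map_pow, aeval_X, sub_eq_zero] at h3
    exact h3
  have h5 : y ^ (ℓ ^ j - 1) = 1 := by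
    have h6 : 1 ≤ ℓ ^ j := Nat.one_le_pow _ _ hℓ.out.pos
    have h7 : y ^ (ℓ ^ j - 1) * y = 1 * y := by
      rw [← pow_succ, Nat.sub_add_cancel h6, h4, one_mul]
    exact mul_right_cancel₀ hy0 h7
  obtain ⟨c, hc⟩ := Finset.dvd_prod_of_mem (fun j => ℓ ^ j - 1)
    (Finset.mem_Icc.2 ⟨hj0, hjb⟩ : j ∈ Finset.Icc 1 b)
  rw [hc, pow_mul, h5, one_pow]

/-- no relation between algebraic integers of small degree modulo `ℓ` and products of inverse roots -/
theorem key (ℓ : ℕ) [hℓ : Fact ℓ.Prime] {J : Type} [Fintype J] [Nonempty J]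
    (χ : J → MulChar k ℂ) (hχ : ∀ j, χ j ≠ 1 ∧ ∃ a, χ j ^ ℓ ^ a = 1) (b : ℕ) (c : J → k)
    (hc : ∀ j, c j ≠ 0) (D₀ : J → k[X]) (hD : ∀ j, (D₀ j).Monic) (hirr : ∀ j, Irreducible (D₀ j))
    (hN : ∀ j, Nat.Coprime (D₀ j).natDegree (ℓ * ∏ i ∈ Finset.Icc 1 b, (ℓ ^ i - 1)))
    (hco : ∀ j j', j ≠ j' → Nat.Coprime (D₀ j).natDegree (D₀ j').natDegree)
    (κ : Type) [Field κ] [Algebra (ZMod ℓ) κ] (φ : AI →+* κ) (f : (ZMod ℓ)[X]) (A : AI)
    (hf : f.Monic) (hb : f.natDegree ≤ b) (hA : aeval (φ A) f = 0)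
    (t : J → ℂ) (ht : ∀ j, (Lp (χ j) (c j) (D₀ j) 1).eval (t j) = 0) (n i : ℕ)
    (hn : ∀ j, Nat.Coprime n (D₀ j).natDegree) :
    (A : ℂ) ^ n ≠ (Nat.card k : ℂ) ^ i * ∏ j, t j ^ n := by
  classical
  intro h
  haveI : CharP κ ℓ := charP_of_injective_algebraMap (algebraMap (ZMod ℓ) κ).injective ℓ
  obtain ⟨N, hNdef⟩ : ∃ N, N = ∏ i ∈ Finset.Icc 1 b, (ℓ ^ i - 1) := ⟨_, rfl⟩
  rw [← hNdef] at hN
  have hroot : ∀ j, ∃ g : AI, (g : ℂ) * t j = 1 ∧ φ g ^ (D₀ j).natDegree = 1 ∧ φ g ≠ 1 := by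
    intro j
    obtain ⟨h1, a, ha⟩ := hχ j
    exact root_red ℓ φ (χ j) h1 a ha (c j) (hc j) (D₀ j) (hD j) (hirr j)
      (Nat.Coprime.coprime_mul_right_right (hN j)) (t j) (ht j)
  choose g hg1 hg2 hg3 using hroot
  obtain ⟨j₀⟩ : Nonempty J := inferInstance
  have hqκ : (Nat.card k : κ) = 1 := by
    obtain ⟨h1, a, ha⟩ := hχ j₀
    exact card_one ℓ (χ j₀) h1 a ha
  have hAI : A ^ n * ∏ j, g j ^ n = (Nat.card k : AI) ^ i := by
    apply Subtype.ext
    push_cast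
    rw [h, mul_assoc, ← Finset.prod_mul_distrib]
    have h1 : ∏ j, (t j ^ n * (g j : ℂ) ^ n) = 1 := Finset.prod_eq_one fun j _ => by
      rw [← mul_pow, mul_comm, hg1, one_pow]
    rw [h1, mul_one]
  have hφ := congrArg φ hAI
  rw [map_mul, map_pow, map_prod, map_pow, map_natCast, hqκ, one_pow] at hφ
  have hn0 : n ≠ 0 := by
    rintro rfl
    have h1 := hn j₀
    rw [Nat.coprime_zero_left] at h1
    have h2 := hg2 j₀
    rw [h1, pow_one] at h2
    exact hg3 j₀ h2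
  have hy0 : φ A ≠ 0 := by
    intro h1
    rw [h1, zero_pow hn0, zero_mul] at hφ
    exact zero_ne_one hφ
  have hyN : φ A ^ N = 1 := by
    rw [hNdef]
    exact pow_eq_one_of_zmod ℓ f hf b hb _ hy0 hA
  obtain ⟨M, hM⟩ : ∃ M, M = N * ∏ j ∈ Finset.univ.erase j₀, (D₀ j).natDegree := ⟨_, rfl⟩
  have h1 : φ (g j₀) ^ (n * M) = 1 := by
    have h2 := congrArg (· ^ M) hφ
    simp only [one_pow] at h2
    rw [mul_pow, ← Finset.prod_pow, ← Finset.mul_prod_erase Finset.univ _ (Finset.mem_univ j₀)]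
      at h2
    have h3 : (φ A ^ n) ^ M = 1 := by
      rw [← pow_mul, hM, mul_comm n, mul_assoc, pow_mul, hyN, one_pow]
    have h4 : ∏ j ∈ Finset.univ.erase j₀, (φ (g j ^ n)) ^ M = 1 := by
      refine Finset.prod_eq_one fun j hj => ?_
      obtain ⟨e, he⟩ := Finset.dvd_prod_of_mem (fun j => (D₀ j).natDegree) hj
      rw [map_pow, ← pow_mul, hM, he]
      have : n * (N * ((D₀ j).natDegree * e)) = (D₀ j).natDegree * (n * N * e) := by ring
      rw [this, pow_mul, hg2, one_pow]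
    rw [h3, h4, one_mul, mul_one, map_pow, ← pow_mul] at h2
    exact h2
  have hcop : Nat.Coprime (n * M) (D₀ j₀).natDegree := by
    apply Nat.Coprime.mul_left (hn j₀)
    rw [hM]
    apply Nat.Coprime.mul_left
    · exact (Nat.Coprime.coprime_mul_left_right (hN j₀)).symm
    · apply Nat.Coprime.prod_left
      intro j hj
      exact hco j j₀ (Finset.ne_of_mem_erase hj)
  have h2 : orderOf (φ (g j₀)) ∣ Nat.gcd (n * M) (D₀ j₀).natDegree :=
    Nat.dvd_gcd (orderOf_dvd_of_pow_eq_one h1) (orderOf_dvd_of_pow_eq_one (hg2 j₀))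
  rw [hcop.gcd_eq_one, Nat.dvd_one, orderOf_eq_one_iff] at h2
  exact hg3 j₀ h2

/-- the L-polynomial has degree `deg D₀ - 1` -/
theorem natDegree_Lp (ℓ : ℕ) [Fact ℓ.Prime] (χ : MulChar k ℂ) (hχ : χ ≠ 1)
    (a : ℕ) (hχa : χ ^ ℓ ^ a = 1) (c : k) (hc : c ≠ 0) (D₀ : k[X]) (hD : D₀.Monic)
    (hirr : Irreducible D₀) : (Lp χ c D₀ 1).natDegree = D₀.natDegree - 1 := by
  obtain ⟨κ, hκ1, hκ2, ⟨φ⟩⟩ := exists_phi ℓ
  obtain ⟨s, hs, hs0, hs1⟩ := coeff_red ℓ φ χ hχ a hχa c hc D₀ hD hirr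
  have hn0 := hirr.natDegree_pos
  apply natDegree_eq_of_le_of_coeff_ne_zero
  · unfold Lp
    refine natDegree_sum_le_of_forall_le _ _ fun m hm => ?_
    rw [Finset.mem_range] at hm
    exact (natDegree_C_mul_X_pow_le _ _).trans (by omega)
  · rw [coeff_Lp χ hχ c D₀ hD hirr.squarefree hn0, one_pow, mul_one, ← hs]
    intro h
    have h1 : s (D₀.natDegree - 1) = 0 := Subtype.ext h
    have h2 := hs1 (D₀.natDegree - 1) (by omega)
    rw [h1, map_zero] at h2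
    exact zero_ne_one h2

theorem coeff_zero_Lp (χ : MulChar k ℂ) (hχ : χ ≠ 1) (c : k) (D₀ : k[X]) (hD : D₀.Monic)
    (hirr : Irreducible D₀) : (Lp χ c D₀ 1).coeff 0 = 1 := by
  rw [coeff_Lp χ hχ c D₀ hD hirr.squarefree hirr.natDegree_pos, one_pow, mul_one,
    S_zero (hf_CM χ c D₀)]

/-- the Euler factor of one character -/
noncomputable def locFactor (χ : MulChar k ℂ) (D P : k[X]) : PowerSeries ℂ :=
  (1 - PowerSeries.C (χ (Algebra.norm k (AdjoinRoot.mk P D))) * PowerSeries.X ^ P.natDegree)⁻¹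

theorem euler_one (χ : MulChar k ℂ) (hχ : χ ≠ 1) (c : k) (D₀ : k[X]) (hD : D₀.Monic)
    (hirr : Irreducible D₀) : eulerProd (fun P : MI k => P.1.natDegree)
      (fun P => locFactor χ (C c * D₀) P.1) = ((Lp χ c D₀ 1 : ℂ[X]) : PowerSeries ℂ) := by
  have h := euler_eq (ι := Unit) (fun _ => χ) (fun _ => hχ) (fun _ => 1) c D₀ hD hirr.squarefree
    hirr.natDegree_pos
  simp only [Finset.univ_unique, Finset.prod_singleton] at h
  rw [← h]
  congr 1
  funext P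
  unfold locFactor localFactor symbol
  simp only [Finset.univ_unique, Finset.prod_singleton, map_one, one_mul]

theorem main (ℓ : ℕ) [hℓ : Fact ℓ.Prime] (b : ℕ) {J : Type} [Fintype J] [Nonempty J]
    (χ : J → MulChar k ℂ) (hχ : ∀ j, χ j ≠ 1 ∧ ∃ a, χ j ^ ℓ ^ a = 1) (D : J → k[X])
    (hD : ∀ j, Irreducible (D j) ∧
      Nat.Coprime (D j).natDegree (ℓ * ∏ i ∈ Finset.Icc 1 b, (ℓ ^ i - 1)))
    (hco : ∀ j j', j ≠ j' → Nat.Coprime (D j).natDegree (D j').natDegree) :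
    ∃ L : J → ℂ[X], (∀ j, eulerProd (fun P : MI k => P.1.natDegree)
        (fun P => locFactor (χ j) (D j) P.1) = (L j : PowerSeries ℂ) ∧
        (L j).natDegree = (D j).natDegree - 1) ∧
      ∀ (κ : Type) [Field κ] [Algebra (ZMod ℓ) κ] (φ : AI →+* κ) (f : (ZMod ℓ)[X]) (α : AI),
        f.Monic → f.natDegree ≤ b → aeval (φ α) f = 0 →
        ∀ γ : J → ℂ, (∀ j, (L j).eval (γ j)⁻¹ = 0) →
        ∀ n i : ℕ, (∀ j, Nat.Coprime n (D j).natDegree) →
          ((α : ℂ) * ∏ j, γ j) ^ n ≠ (Nat.card k : ℂ) ^ i := by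
  have hc0 : ∀ j, (D j).leadingCoeff ≠ 0 := fun j => leadingCoeff_ne_zero.2 (hD j).1.ne_zero
  obtain ⟨D₀, hD₀⟩ : ∃ D₀ : J → k[X], ∀ j, D₀ j = C (D j).leadingCoeff⁻¹ * D j :=
    ⟨_, fun j => rfl⟩
  have hDD : ∀ j, D j = C (D j).leadingCoeff * D₀ j := by
    intro j
    rw [hD₀, ← mul_assoc, ← C_mul, mul_inv_cancel₀ (hc0 j), C_1, one_mul]
  have hunit : ∀ j, IsUnit (C (D j).leadingCoeff : k[X]) := fun j =>
    isUnit_C.2 (isUnit_iff_ne_zero.2 (hc0 j))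
  have hm : ∀ j, (D₀ j).Monic := by
    intro j
    rw [hD₀, mul_comm]
    exact monic_mul_leadingCoeff_inv (hD j).1.ne_zero
  have hirr : ∀ j, Irreducible (D₀ j) := by
    intro j
    have h1 := (hD j).1
    rw [hDD j, irreducible_isUnit_mul (hunit j)] at h1
    exact h1
  have hnat : ∀ j, (D₀ j).natDegree = (D j).natDegree := by
    intro j
    have h1 := congrArg natDegree (hDD j)
    rw [natDegree_C_mul (hc0 j)] at h1
    exact h1.symm
  refine ⟨fun j => Lp (χ j) (D j).leadingCoeff (D₀ j) 1, fun j => ⟨?_, ?_⟩, ?_⟩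
  · have h1 := euler_one (χ j) (hχ j).1 (D j).leadingCoeff (D₀ j) (hm j) (hirr j)
    rw [← hDD j] at h1
    exact h1
  · obtain ⟨h1, a, ha⟩ := hχ j
    rw [natDegree_Lp ℓ (χ j) h1 a ha _ (hc0 j) (D₀ j) (hm j) (hirr j), hnat]
  · intro κ _ _ φ f α hf hb hA γ hγ n i hn h
    have hγ0 : ∀ j, γ j ≠ 0 := by
      intro j h0
      have h1 := hγ j
      rw [h0, inv_zero, ← coeff_zero_eq_eval_zero,
        coeff_zero_Lp (χ j) (hχ j).1 _ (D₀ j) (hm j) (hirr j)] at h1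
      exact one_ne_zero h1
    refine key ℓ χ hχ b (fun j => (D j).leadingCoeff) hc0 D₀ hm hirr
      (fun j => by rw [hnat]; exact (hD j).2) (fun j j' hj => by rw [hnat, hnat]; exact hco j j' hj)
      κ φ f α hf hb hA (fun j => (γ j)⁻¹) hγ n i (fun j => by rw [hnat]; exact hn j) ?_
    rw [← h, mul_pow, mul_assoc, ← Finset.prod_pow, ← Finset.prod_mul_distrib]
    have h1 : ∏ j, (γ j ^ n * (γ j)⁻¹ ^ n) = 1 := Finset.prod_eq_one fun j _ => by
      rw [← mul_pow, mul_inv_cancel₀ (hγ0 j), one_pow]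
    rw [h1, mul_one]

end Pool.Agent.J4H10.JV
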