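import Pool.Agent.J4H10.BS.Fac

/-!
# Products of Frobenius eigenvalues: one good polynomial, the others arbitrary squarefree
-/

set_option autoImplicit false
set_option linter.unusedSectionVars false

open Polynomial

namespace Pool.Agent.J4H10.JV

open Pool.Agent.W313.Hyp Pool.Agent.W343.BSD Pool.Agent.J4H10.Tw Pool.Agent.J4H10.BS

variable {k : Type} [Field k] [Finite k]

theorem euler_sq (χ : MulChar k ℂ) (hχ : χ ≠ 1) (c : k) (D₀ : k[X]) (hD : D₀.Monic)
    (hsq : Squarefree D₀) (hdeg : 0 < D₀.natDegree) : eulerProd (fun P : MI k => P.1.natDegree)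
      (fun P => locFactor χ (C c * D₀) P.1) = ((Lp χ c D₀ 1 : ℂ[X]) : PowerSeries ℂ) := by
  have h := euler_eq (ι := Unit) (fun _ => χ) (fun _ => hχ) (fun _ => 1) c D₀ hD hsq hdeg
  simp only [Finset.univ_unique, Finset.prod_singleton] at h
  rw [← h]
  congr 1
  funext P
  unfold locFactor localFactor symbol
  simp only [Finset.univ_unique, Finset.prod_singleton, map_one, one_mul]

theorem main2 (ℓ : ℕ) [hℓ : Fact ℓ.Prime] {J : Type} [Fintype J]
    (χ : J → MulChar k ℂ) (hχ : ∀ j, χ j ≠ 1 ∧ ∃ a, χ j ^ ℓ ^ a = 1) (D : J → k[X])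
    (hD : ∀ j, Squarefree (D j) ∧ 0 < (D j).natDegree) (j₀ : J) (hirr : Irreducible (D j₀))
    (hℓ₀ : Nat.Coprime (D j₀).natDegree ℓ)
    (hco : ∀ j, j ≠ j₀ → ∀ π : k[X], Irreducible π → π ∣ D j →
      Nat.Coprime (D j₀).natDegree π.natDegree) :
    ∃ L : J → ℂ[X], (∀ j, eulerProd (fun P : MI k => P.1.natDegree)
        (fun P => locFactor (χ j) (D j) P.1) = (L j : PowerSeries ℂ) ∧
        (L j).natDegree ≤ (D j).natDegree - 1) ∧
      ∀ (κ : Type) [Field κ] [CharP κ ℓ] (φ : AI →+* κ) (α : AI) (M : ℕ),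
        Nat.Coprime (D j₀).natDegree M → (φ α = 0 ∨ φ α ^ M = 1) →
        ∀ γ : J → ℂ, (∀ j, (L j).eval (γ j)⁻¹ = 0) →
        ∀ (n : ℕ) (i : ℤ), Nat.Coprime n (D j₀).natDegree →
          ((α : ℂ) * ∏ j, γ j) ^ n ≠ (Nat.card k : ℂ) ^ i := by
  classical
  have hc0 : ∀ j, (D j).leadingCoeff ≠ 0 := fun j => leadingCoeff_ne_zero.2 (hD j).1.ne_zero
  obtain ⟨D₀, hD₀⟩ : ∃ D₀ : J → k[X], ∀ j, D₀ j = C (D j).leadingCoeff⁻¹ * D j :=
    ⟨_, fun j => rfl⟩
  have hDD : ∀ j, D j = C (D j).leadingCoeff * D₀ j := by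
    intro j
    rw [hD₀, ← mul_assoc, ← C_mul, mul_inv_cancel₀ (hc0 j), C_1, one_mul]
  have hm : ∀ j, (D₀ j).Monic := by
    intro j
    rw [hD₀, mul_comm]
    exact monic_mul_leadingCoeff_inv (hD j).1.ne_zero
  have hsq : ∀ j, Squarefree (D₀ j) := by
    intro j
    have h1 := (hD j).1
    rw [hDD j] at h1
    exact h1.of_mul_right
  have hnat : ∀ j, (D₀ j).natDegree = (D j).natDegree := by
    intro j
    have h1 := congrArg natDegree (hDD j)
    rw [natDegree_C_mul (hc0 j)] at h1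
    exact h1.symm
  have hdg : ∀ j, 0 < (D₀ j).natDegree := fun j => by rw [hnat]; exact (hD j).2
  have hirr₀ : Irreducible (D₀ j₀) := by
    have h1 := hirr
    rw [hDD j₀, irreducible_isUnit_mul (isUnit_C.2 (isUnit_iff_ne_zero.2 (hc0 j₀)))] at h1
    exact h1
  refine ⟨fun j => Lp (χ j) (D j).leadingCoeff (D₀ j) 1, fun j => ⟨?_, ?_⟩, ?_⟩
  · have h1 := euler_sq (χ j) (hχ j).1 (D j).leadingCoeff (D₀ j) (hm j) (hsq j) (hdg j)
    rw [← hDD j] at h1
    exact h1
  · rw [← hnat j]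
    unfold Lp
    refine natDegree_sum_le_of_forall_le _ _ fun m hm => ?_
    rw [Finset.mem_range] at hm
    exact (natDegree_C_mul_X_pow_le _ _).trans (by omega)
  · intro κ _ _ φ α M hM hα γ hγ n z hn hz
    obtain ⟨a₀, ha₀⟩ := (hχ j₀).2
    have hqκ : (Nat.card k : κ) = 1 := card_one ℓ (χ j₀) (hχ j₀).1 a₀ ha₀
    obtain ⟨g₀, hg1, hg2, hg3⟩ := root_red ℓ φ (χ j₀) (hχ j₀).1 a₀ ha₀ (D j₀).leadingCoeff
      (hc0 j₀) (D₀ j₀) (hm j₀) hirr₀ (by rw [hnat]; exact hℓ₀) _ (hγ j₀)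
    rw [hnat] at hg2
    have hinv : ∀ (g : AI) (y : ℂ), (g : ℂ) * y⁻¹ = 1 → (g : ℂ) = y := by
      intro g y h
      have h1 := eq_inv_of_mul_eq_one_left h
      rwa [inv_inv] at h1
    have hg : ∀ j, ∃ (g : AI) (E : ℕ), (g : ℂ) = γ j ∧ (φ g ≠ 0 → φ g ^ E = 1) ∧
        (j ≠ j₀ → Nat.Coprime (D j₀).natDegree E) ∧
        (j = j₀ → φ g ^ (D j₀).natDegree = 1 ∧ φ g ≠ 1) := by
      intro j
      by_cases hj : j = j₀
      · subst hj
        exact ⟨g₀, (D j).natDegree, hinv _ _ hg1, fun _ => hg2, fun h => absurd rfl h,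
          fun _ => ⟨hg2, hg3⟩⟩
      · obtain ⟨a, ha⟩ := (hχ j).2
        obtain ⟨g, hg1', hgf⟩ := root_fac ℓ φ (χ j) (hχ j).1 a ha (D j).leadingCoeff
          (hc0 j) (D₀ j) (hm j) (hsq j) (hdg j) _ (hγ j)
        by_cases h0 : φ g = 0
        · exact ⟨g, 1, hinv _ _ hg1', fun h => absurd h0 h, fun _ => Nat.coprime_one_right _,
            fun h => absurd h hj⟩
        · obtain ⟨π, hπ1, hπ2, hπ3⟩ := hgf h0
          refine ⟨g, π.natDegree, hinv _ _ hg1', fun _ => hπ3, fun _ => hco j hj π hπ1 ?_,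
            fun h => absurd h hj⟩
          rw [hDD j]
          exact hπ2.mul_left _
    choose g E hg1 hg2 hE hg3 using hg
    obtain ⟨h00, hne⟩ := hg3 j₀ rfl
    have hn0 : n ≠ 0 := by
      rintro rfl
      rw [Nat.coprime_zero_left] at hn
      rw [hn, pow_one] at h00
      exact hne h00
    have hq0 : (Nat.card k : ℂ) ≠ 0 := by
      rw [Nat.cast_ne_zero]
      exact Nat.card_pos.ne'
    obtain ⟨u, v, huv⟩ : ∃ u v : ℕ, z = (v : ℤ) - u := by
      rcases le_total 0 z with h | h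
      · exact ⟨0, z.toNat, by rw [Int.toNat_of_nonneg h]; simp⟩
      · exact ⟨(-z).toNat, 0, by rw [Int.toNat_of_nonneg (by omega)]; simp⟩
    have hprod : ∏ j, γ j = ((∏ j, g j : AI) : ℂ) := by
      push_cast
      exact Finset.prod_congr rfl fun j _ => (hg1 j).symm
    have h1 : (α * ∏ j, g j) ^ n * (Nat.card k : AI) ^ u = (Nat.card k : AI) ^ v := by
      apply Subtype.ext
      have h2 : ((α : ℂ) * ((∏ j, g j : AI) : ℂ)) ^ n * (Nat.card k : ℂ) ^ u =
          (Nat.card k : ℂ) ^ v := by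
        rw [← hprod, hz, huv, zpow_sub₀ hq0, zpow_natCast, zpow_natCast,
          div_mul_cancel₀ _ (pow_ne_zero _ hq0)]
      exact_mod_cast h2
    have h2 := congrArg φ h1
    rw [map_mul, map_pow, map_mul, map_pow, map_pow, map_natCast, hqκ, one_pow, one_pow, mul_one,
      map_prod] at h2
    have hα0 : φ α ≠ 0 := by
      intro h
      rw [h, zero_mul, zero_pow hn0] at h2
      exact zero_ne_one h2
    have hαM : φ α ^ M = 1 := hα.resolve_left hα0
    have hnz : ∀ j, φ (g j) ≠ 0 := by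
      intro j h3
      rw [Finset.prod_eq_zero (Finset.mem_univ j) h3, mul_zero, zero_pow hn0] at h2
      exact zero_ne_one h2
    obtain ⟨R, hR⟩ : ∃ R, R = ∏ j ∈ Finset.univ.erase j₀, E j := ⟨_, rfl⟩
    have h3 := congrArg (· ^ (M * R)) h2
    simp only [one_pow] at h3
    rw [← Finset.mul_prod_erase Finset.univ _ (Finset.mem_univ j₀), mul_pow, mul_pow, mul_pow,
      mul_pow, ← Finset.prod_pow, ← Finset.prod_pow] at h3
    have h4 : ∏ j ∈ Finset.univ.erase j₀, (φ (g j) ^ n) ^ (M * R) = 1 := by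
      refine Finset.prod_eq_one fun j hj => ?_
      obtain ⟨r, hr⟩ := Finset.dvd_prod_of_mem E hj
      rw [← hR] at hr
      have h5 : (φ (g j) ^ n) ^ (M * R) = (φ (g j) ^ E j) ^ (n * M * r) := by
        rw [hr, ← pow_mul, ← pow_mul]
        congr 1
        ring
      rw [h5, hg2 j (hnz j), one_pow]
    have h5 : (φ α ^ n) ^ (M * R) = 1 := by
      have h6 : (φ α ^ n) ^ (M * R) = (φ α ^ M) ^ (n * R) := by
        rw [← pow_mul, ← pow_mul]
        congr 1
        ring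
      rw [h6, hαM, one_pow]
    rw [h4, h5, mul_one, one_mul, ← pow_mul] at h3
    have hcop : Nat.Coprime (n * (M * R)) (D j₀).natDegree := by
      apply Nat.Coprime.mul_left hn
      apply Nat.Coprime.mul_left hM.symm
      rw [hR]
      apply Nat.Coprime.prod_left
      intro j hj
      exact (hE j (Finset.ne_of_mem_erase hj)).symm
    have h6 : orderOf (φ (g j₀)) ∣ Nat.gcd (n * (M * R)) (D j₀).natDegree :=
      Nat.dvd_gcd (orderOf_dvd_of_pow_eq_one h3) (orderOf_dvd_of_pow_eq_one h00)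
    rw [hcop.gcd_eq_one, Nat.dvd_one, orderOf_eq_one_iff] at h6
    exact hne h6

end Pool.Agent.J4H10.JV
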